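import Pool.Agent.H69.LNN.Targets

/-!
# MP_8f7db2_an: the centre, dimension-free (row CN of `lnn_modules`, helper70)
-/

set_option autoImplicit false

open MeasureTheory Metric Set

namespace Pool.Agent.H70.LNN

open Pool.Agent.H85.LK (E)
open Pool.Agent.H69.LNN

variable {N : ℕ}

/-- the Gaussian -/
noncomputable def gg (o x : E N) : ℝ := Real.exp (-((N : ℝ) / 4) * ‖x - o‖ ^ 2)

theorem gg_pos (o x : E N) : 0 < gg o x := Real.exp_pos _

theorem gg_le (o x : E N) : gg o x ≤ 1 := by
  unfold gg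
  rw [Real.exp_le_one_iff]
  have : (0 : ℝ) ≤ (N : ℝ) / 4 * ‖x - o‖ ^ 2 := by positivity
  linarith

theorem gg_cont (o : E N) : Continuous (gg o) := by
  unfold gg
  fun_prop

theorem gg_int (o : E N) (S : Set (E N)) (hS : volume S ≠ ⊤) : IntegrableOn (gg o) S := by
  refine Measure.integrableOn_of_bounded (M := 1) hS (gg_cont o).aestronglyMeasurable ?_
  filter_upwards with x
  rw [Real.norm_eq_abs, abs_of_pos (gg_pos o x)]
  exact gg_le o x

theorem vB_pos : 0 < vB N := by
  unfold vB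
  rw [measureReal_def, ENNReal.toReal_pos_iff]
  exact ⟨measure_ball_pos volume _ one_pos, measure_ball_lt_top⟩

theorem ball_vol (o : E N) {r : ℝ} (hr : 0 < r) : volume.real (ball o r) = r ^ N * vB N := by
  unfold vB
  rw [measureReal_def, measureReal_def, Measure.addHaar_ball_of_pos volume o hr, ENNReal.toReal_mul,
    ENNReal.toReal_ofReal (by positivity), finrank_euclideanSpace_fin]

/-- the Gaussian and the volume of the ball -/
theorem exp_le {y : ℝ} (hy : 0 < y) :
    Real.exp (-((N : ℝ) / 4) * y ^ 2) ≤ Real.exp (-((N : ℝ) / 4)) * y ^ (-((N : ℝ) / 2)) := by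
  rw [Real.rpow_def_of_pos hy, ← Real.exp_add, Real.exp_le_exp]
  have h1 : Real.log (y ^ 2) ≤ y ^ 2 - 1 := Real.log_le_sub_one_of_pos (by positivity)
  rw [Real.log_pow] at h1
  push_cast at h1
  have h2 : (0 : ℝ) ≤ N := Nat.cast_nonneg N
  nlinarith

/-- the Gaussian on a ball -/
theorem int_ball (o : E N) (hN : 2 ≤ N) {ρ : ℝ} (hρ : 0 < ρ) :
    ∫ x in ball o ρ, gg o x ≤ 2 * ρ ^ ((N : ℝ) / 2) * Real.exp (-((N : ℝ) / 4)) * vB N := by
  have hnt : Nontrivial (E N) := by
    apply Module.nontrivial_of_finrank_pos (R := ℝ)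
    rw [finrank_euclideanSpace_fin]
    omega
  have hN0 : (0 : ℝ) < N := by
    have : 0 < N := by omega
    exact_mod_cast this
  obtain ⟨f, hf⟩ : ∃ f : ℝ → ℝ, f = fun y => if y < ρ then Real.exp (-((N : ℝ) / 4) * y ^ 2) else 0 :=
    ⟨_, rfl⟩
  have h1 : ∫ x in ball o ρ, gg o x = ∫ x : E N, f ‖x‖ := by
    rw [← integral_indicator measurableSet_ball]
    have h2 : (ball o ρ).indicator (gg o) = fun x => (fun z : E N => f ‖z‖) (x - o) := by
      funext x
      rw [hf]
      by_cases hx : x ∈ ball o ρ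
      · rw [indicator_of_mem hx]
        rw [mem_ball, dist_eq_norm] at hx
        simp only [hx, if_true]
        rfl
      · rw [indicator_of_notMem hx]
        rw [mem_ball, dist_eq_norm] at hx
        simp only [hx, if_false]
    rw [h2]
    exact integral_sub_right_eq_self (fun z : E N => f ‖z‖) o
  rw [h1, integral_fun_norm_addHaar, finrank_euclideanSpace_fin]
  simp only [smul_eq_mul, nsmul_eq_mul]
  have h3 : ∫ y in Ioi (0 : ℝ), y ^ (N - 1) * f y ≤
      ∫ y in Ioc (0 : ℝ) ρ, Real.exp (-((N : ℝ) / 4)) * y ^ ((N : ℝ) / 2 - 1) := by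
    have h4 : ∫ y in Ioi (0 : ℝ), y ^ (N - 1) * f y = ∫ y in Ioc (0 : ℝ) ρ, y ^ (N - 1) * f y := by
      rw [← integral_indicator measurableSet_Ioi, ← integral_indicator measurableSet_Ioc]
      congr 1
      funext y
      by_cases hy : y ∈ Ioc (0 : ℝ) ρ
      · rw [indicator_of_mem hy, indicator_of_mem (show y ∈ Ioi (0 : ℝ) from hy.1)]
      · rw [indicator_of_notMem hy]
        by_cases hy0 : y ∈ Ioi (0 : ℝ)
        · rw [indicator_of_mem hy0]
          have : ¬ y < ρ := fun h => hy ⟨hy0, h.le⟩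
          rw [hf]
          simp only [this, if_false, mul_zero]
        · rw [indicator_of_notMem hy0]
    rw [h4]
    have hint : IntegrableOn (fun y : ℝ => Real.exp (-((N : ℝ) / 4)) * y ^ ((N : ℝ) / 2 - 1))
        (Ioc 0 ρ) := by
      have h5 : IntervalIntegrable (fun y : ℝ => y ^ ((N : ℝ) / 2 - 1)) volume 0 ρ :=
        intervalIntegral.intervalIntegrable_rpow' (by linarith)
      rw [intervalIntegrable_iff_integrableOn_Ioc_of_le hρ.le] at h5
      exact h5.const_mul _
    refine integral_mono_of_nonneg ?_ hint ?_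
    · filter_upwards [ae_restrict_mem measurableSet_Ioc] with y hy
      have : 0 ≤ f y := by
        rw [hf]
        dsimp only
        split_ifs
        · exact (Real.exp_pos _).le
        · exact le_rfl
      exact mul_nonneg (pow_nonneg hy.1.le _) this
    · filter_upwards [ae_restrict_mem measurableSet_Ioc] with y hy
      have hy0 : 0 < y := hy.1
      have h6 : f y ≤ Real.exp (-((N : ℝ) / 4)) * y ^ (-((N : ℝ) / 2)) := by
        rw [hf]
        dsimp only
        split_ifs
        · exact exp_le hy0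
        · positivity
      have h7 : y ^ ((N : ℝ) / 2 - 1) = y ^ (N - 1) * y ^ (-((N : ℝ) / 2)) := by
        rw [← Real.rpow_natCast, ← Real.rpow_add hy0]
        congr 1
        rw [Nat.cast_sub (by omega)]
        push_cast
        ring
      rw [h7]
      calc y ^ (N - 1) * f y ≤ y ^ (N - 1) * (Real.exp (-((N : ℝ) / 4)) * y ^ (-((N : ℝ) / 2))) :=
            mul_le_mul_of_nonneg_left h6 (by positivity)
        _ = _ := by ring
  have h8 : ∫ y in Ioc (0 : ℝ) ρ, Real.exp (-((N : ℝ) / 4)) * y ^ ((N : ℝ) / 2 - 1) =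
      Real.exp (-((N : ℝ) / 4)) * (ρ ^ ((N : ℝ) / 2) / ((N : ℝ) / 2)) := by
    rw [← intervalIntegral.integral_of_le hρ.le, intervalIntegral.integral_const_mul,
      integral_rpow (Or.inl (by linarith))]
    congr 1
    rw [sub_add_cancel, Real.zero_rpow (by positivity), sub_zero]
  rw [h8] at h3
  have h9 := mul_le_mul_of_nonneg_left h3 (show (0 : ℝ) ≤ N * vB N by
    have := (vB_pos (N := N)).le
    positivity)
  calc (N : ℝ) * (volume.real (ball (0 : E N) 1) * ∫ y in Ioi (0 : ℝ), y ^ (N - 1) * f y)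
      = N * vB N * ∫ y in Ioi (0 : ℝ), y ^ (N - 1) * f y := by
        unfold vB
        ring
    _ ≤ N * vB N * (Real.exp (-((N : ℝ) / 4)) * (ρ ^ ((N : ℝ) / 2) / ((N : ℝ) / 2))) := h9
    _ = _ := by
        field_simp

/-- the bathtub inequality -/
theorem bathtub (o : E N) (hN : 2 ≤ N) {κ : ℝ} (hκ : 0 < κ) (S : Set (E N))
    (hS : MeasurableSet S) (hSf : volume S ≠ ⊤) (hSv : volume.real S ≤ κ * vB N) :
    ∫ x in S, gg o x ≤ 3 * Real.sqrt κ * (Real.exp (-((N : ℝ) / 4)) * vB N) := by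
  have hN0 : (0 : ℝ) < N := by
    have : 0 < N := by omega
    exact_mod_cast this
  obtain ⟨ρ, hρ⟩ : ∃ ρ : ℝ, ρ = κ ^ (1 / (N : ℝ)) := ⟨_, rfl⟩
  have hρ0 : 0 < ρ := by rw [hρ]; positivity
  have hρ2 : ρ ^ ((N : ℝ) / 2) = Real.sqrt κ := by
    rw [hρ, ← Real.rpow_mul hκ.le, Real.sqrt_eq_rpow]
    congr 1
    field_simp
  have hv := vB_pos (N := N)
  have hsp : ∫ x in S, gg o x = (∫ x in S ∩ ball o ρ, gg o x) + ∫ x in S \ ball o ρ, gg o x :=
    (integral_inter_add_sdiff measurableSet_ball (gg_int o S hSf)).symm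
  have h1 : ∫ x in S ∩ ball o ρ, gg o x ≤ ∫ x in ball o ρ, gg o x := by
    refine setIntegral_mono_set (gg_int o _ measure_ball_lt_top.ne) ?_ ?_
    · filter_upwards with x
      exact (gg_pos o x).le
    · exact (inter_subset_right).eventuallyLE
  have h2 : ∫ x in S \ ball o ρ, gg o x ≤
      Real.exp (-((N : ℝ) / 4)) * (Real.sqrt κ)⁻¹ * (κ * vB N) := by
    have hfin : volume (S \ ball o ρ) ≠ ⊤ :=
      ne_top_of_le_ne_top hSf (measure_mono sdiff_subset)
    have h3 : ∀ x ∈ S \ ball o ρ, gg o x ≤ Real.exp (-((N : ℝ) / 4)) * (Real.sqrt κ)⁻¹ := by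
      intro x hx
      have hx2 : ρ ≤ ‖x - o‖ := by
        have := hx.2
        rw [mem_ball, dist_eq_norm, not_lt] at this
        exact this
      refine (exp_le (lt_of_lt_of_le hρ0 hx2)).trans ?_
      apply mul_le_mul_of_nonneg_left _ (Real.exp_pos _).le
      rw [← hρ2, ← Real.rpow_neg hρ0.le]
      exact Real.rpow_le_rpow_of_nonpos hρ0 hx2 (by
        have : (0 : ℝ) ≤ (N : ℝ) / 2 := by positivity
        linarith)
    have h4 : ∫ x in S \ ball o ρ, gg o x ≤
        ∫ _ in S \ ball o ρ, Real.exp (-((N : ℝ) / 4)) * (Real.sqrt κ)⁻¹ :=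
      setIntegral_mono_on (gg_int o _ hfin) (integrableOn_const (hs := hfin))
        (hS.diff measurableSet_ball) h3
    rw [setIntegral_const, smul_eq_mul, mul_comm] at h4
    refine h4.trans ?_
    apply mul_le_mul_of_nonneg_left _ (by positivity)
    exact (measureReal_mono sdiff_subset hSf).trans hSv
  have h3 := int_ball o hN hρ0
  rw [hρ2] at h3
  have h4 : Real.exp (-((N : ℝ) / 4)) * (Real.sqrt κ)⁻¹ * (κ * vB N) =
      Real.sqrt κ * (Real.exp (-((N : ℝ) / 4)) * vB N) := by
    have hs : Real.sqrt κ ≠ 0 := (Real.sqrt_pos.2 hκ).ne'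
    have h5 : κ = Real.sqrt κ * Real.sqrt κ := (Real.mul_self_sqrt hκ.le).symm
    calc Real.exp (-((N : ℝ) / 4)) * (Real.sqrt κ)⁻¹ * (κ * vB N)
        = Real.exp (-((N : ℝ) / 4)) * (Real.sqrt κ)⁻¹ * (Real.sqrt κ * Real.sqrt κ * vB N) := by
          rw [← h5]
      _ = _ := by
          field_simp
  rw [h4] at h2
  rw [hsp]
  calc (∫ x in S ∩ ball o ρ, gg o x) + ∫ x in S \ ball o ρ, gg o x ≤
      2 * Real.sqrt κ * Real.exp (-((N : ℝ) / 4)) * vB N +
        Real.sqrt κ * (Real.exp (-((N : ℝ) / 4)) * vB N) := add_le_add (h1.trans h3) h2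
    _ = _ := by ring

/-- the shifted Gaussian -/
noncomputable def hh (o x : E N) : ℝ := gg o x - Real.exp (-((N : ℝ) / 4))

theorem hh_int (o : E N) (S : Set (E N)) (hS : volume S ≠ ⊤) : IntegrableOn (hh o) S :=
  (gg_int o S hS).sub (integrableOn_const (hs := hS))

theorem hh_in (o x : E N) (hx : x ∈ ball o 1) : 0 ≤ hh o x := by
  rw [mem_ball, dist_eq_norm] at hx
  unfold hh gg
  rw [sub_nonneg, Real.exp_le_exp]
  have h1 : ‖x - o‖ ^ 2 ≤ 1 := pow_le_one₀ (norm_nonneg _) hx.le
  have h2 : (0 : ℝ) ≤ N := Nat.cast_nonneg N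
  nlinarith

theorem hh_out (o x : E N) (hx : x ∉ ball o 1) : hh o x ≤ 0 := by
  rw [mem_ball, dist_eq_norm, not_lt] at hx
  unfold hh gg
  rw [sub_nonpos, Real.exp_le_exp]
  have h1 : 1 ≤ ‖x - o‖ ^ 2 := one_le_pow₀ hx
  have h2 : (0 : ℝ) ≤ N := Nat.cast_nonneg N
  nlinarith

/-- the deficit -/
theorem deficit (o : E N) (Ω : Set (E N)) (hΩ : MeasurableSet Ω) (hf : volume Ω ≠ ⊤) :
    ∫ x in symmDiff Ω (ball o 1), |hh o x| =
      (∫ x in ball o 1, hh o x) - ∫ x in Ω, hh o x := by
  have hb : volume (ball o (1 : ℝ)) ≠ ⊤ := measure_ball_lt_top.ne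
  have hf1 : volume (Ω \ ball o 1) ≠ ⊤ := ne_top_of_le_ne_top hf (measure_mono sdiff_subset)
  have hf2 : volume (ball o 1 \ Ω) ≠ ⊤ := ne_top_of_le_ne_top hb (measure_mono sdiff_subset)
  have h1 : ∫ x in symmDiff Ω (ball o 1), |hh o x| =
      (∫ x in Ω \ ball o 1, |hh o x|) + ∫ x in ball o 1 \ Ω, |hh o x| := by
    rw [Set.symmDiff_def]
    refine setIntegral_union ?_ (measurableSet_ball.diff hΩ) ?_ ?_
    · rw [Set.disjoint_left]
      intro x hx hx'
      exact hx.2 hx'.1
    · exact (hh_int o _ hf1).abs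
    · exact (hh_int o _ hf2).abs
  have h2 : ∫ x in Ω \ ball o 1, |hh o x| = -∫ x in Ω \ ball o 1, hh o x := by
    rw [← integral_neg]
    refine setIntegral_congr_fun (hΩ.diff measurableSet_ball) fun x hx => ?_
    exact abs_of_nonpos (hh_out o x hx.2)
  have h3 : ∫ x in ball o 1 \ Ω, |hh o x| = ∫ x in ball o 1 \ Ω, hh o x := by
    refine setIntegral_congr_fun (measurableSet_ball.diff hΩ) fun x hx => ?_
    exact abs_of_nonneg (hh_in o x hx.1)
  have h4 := integral_inter_add_sdiff (μ := volume) measurableSet_ball (hh_int o Ω hf)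
    (t := ball o 1)
  have h5 := integral_inter_add_sdiff (μ := volume) hΩ (hh_int o (ball o 1) hb) (t := Ω)
  rw [inter_comm] at h5
  rw [h1, h2, h3]
  linarith

/-- the shell -/
theorem shell (o : E N) (hN : 3 ≤ N) {δ : ℝ} (hδ : 0 < δ) (hδ4 : δ ≤ 1 / 4) :
    volume {x : E N | |hh o x| < δ * Real.exp (-((N : ℝ) / 4))} ≠ ⊤ ∧
    volume.real {x : E N | |hh o x| < δ * Real.exp (-((N : ℝ) / 4))} ≤ 12 * δ * vB N := by
  have hN0 : (3 : ℝ) ≤ N := by exact_mod_cast hN
  have hNp : (0 : ℝ) < N := by linarith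
  obtain ⟨t, ht⟩ : ∃ t : ℝ, t = 4 * δ / N := ⟨_, rfl⟩
  have ht0 : 0 < t := by rw [ht]; positivity
  have htN : t * N = 4 * δ := by rw [ht]; field_simp
  have ht1 : t < 1 := by
    by_contra h
    have h2 : 1 ≤ t := not_lt.1 h
    nlinarith
  have hρ1 : (0 : ℝ) < 1 - t := by linarith
  have hρ2 : (0 : ℝ) < 1 + t := by linarith
  have hsub : {x : E N | |hh o x| < δ * Real.exp (-((N : ℝ) / 4))} ⊆
      ball o (1 + t) \ ball o (1 - t) := by
    intro x hx
    rw [mem_ofPred_eq, abs_lt] at hx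
    obtain ⟨y, hy⟩ : ∃ y : ℝ, y = ‖x - o‖ := ⟨_, rfl⟩
    have hy0 : 0 ≤ y := by rw [hy]; exact norm_nonneg _
    have hg : gg o x = Real.exp (-((N : ℝ) / 4)) * Real.exp (-((N : ℝ) / 4) * (y ^ 2 - 1)) := by
      unfold gg
      rw [← Real.exp_add, hy]
      congr 1
      ring
    have he : 0 < Real.exp (-((N : ℝ) / 4)) := Real.exp_pos _
    unfold hh at hx
    rw [hg] at hx
    obtain ⟨w, hw⟩ : ∃ w : ℝ, w = Real.exp (-((N : ℝ) / 4) * (y ^ 2 - 1)) := ⟨_, rfl⟩
    rw [← hw] at hx
    have hw1 : w < 1 + δ := by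
      by_contra h
      have h2 : 1 + δ ≤ w := not_lt.1 h
      have := mul_le_mul_of_nonneg_left h2 he.le
      nlinarith [hx.2]
    have hw2 : 1 - δ < w := by
      by_contra h
      have h2 : w ≤ 1 - δ := not_lt.1 h
      have := mul_le_mul_of_nonneg_left h2 he.le
      nlinarith [hx.1]
    have hw0 : 0 < w := by linarith
    have hlog : Real.log w = -((N : ℝ) / 4) * (y ^ 2 - 1) := by rw [hw, Real.log_exp]
    have h1 : Real.log w < δ := by
      have := Real.log_le_sub_one_of_pos hw0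
      linarith
    have h2 : -(2 * δ) < Real.log w := by
      have h3 := Real.log_le_sub_one_of_pos (inv_pos.2 hw0)
      rw [Real.log_inv] at h3
      have h4 : w⁻¹ < (1 - δ)⁻¹ := by
        apply inv_strictAnti₀ _ hw2
        linarith
      have h5 : (1 - δ)⁻¹ ≤ 1 + 2 * δ := by
        rw [inv_le_comm₀ (by linarith) (by linarith)]
        rw [inv_le_iff_one_le_mul₀ (by linarith)]
        nlinarith
      linarith
    rw [hlog] at h1 h2
    have h3 : 1 - t < y ^ 2 := by
      by_contra h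
      have h4 : y ^ 2 ≤ 1 - t := not_lt.1 h
      have h5 : (N : ℝ) * (y ^ 2 - 1) ≤ N * (-t) := mul_le_mul_of_nonneg_left (by linarith) hNp.le
      nlinarith
    have h4 : y ^ 2 < 1 + 2 * t := by
      by_contra h
      have h5 : 1 + 2 * t ≤ y ^ 2 := not_lt.1 h
      have h6 : (N : ℝ) * (2 * t) ≤ N * (y ^ 2 - 1) := mul_le_mul_of_nonneg_left (by linarith) hNp.le
      nlinarith
    constructor
    · rw [mem_ball, dist_eq_norm, ← hy]
      by_contra h
      have h5 : 1 + t ≤ y := not_lt.1 h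
      nlinarith
    · rw [mem_ball, dist_eq_norm, ← hy]
      intro h
      nlinarith
  have hb : volume (ball o (1 + t)) ≠ ⊤ := measure_ball_lt_top.ne
  have h1 : volume.real {x : E N | |hh o x| < δ * Real.exp (-((N : ℝ) / 4))} ≤
      volume.real (ball o (1 + t) \ ball o (1 - t)) :=
    measureReal_mono hsub (ne_top_of_le_ne_top hb (measure_mono sdiff_subset))
  have h2 : volume.real (ball o (1 + t) \ ball o (1 - t)) =
      volume.real (ball o (1 + t)) - volume.real (ball o (1 - t)) :=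
    measureReal_sdiff (ball_subset_ball (by linarith)) measurableSet_ball
  have h3 : (1 + t) ^ N ≤ 1 + 8 * δ := by
    have h4 : (1 + t) ^ N ≤ Real.exp (4 * δ) := by
      rw [← htN, mul_comm t, Real.exp_nat_mul]
      apply pow_le_pow_left₀ hρ2.le
      linarith [Real.add_one_le_exp t]
    have h5 := Real.abs_exp_sub_one_sub_id_le (x := 4 * δ) (by
      rw [abs_of_pos (by linarith)]
      linarith)
    rw [abs_le] at h5
    nlinarith [h5.2]
  have h4 : 1 - 4 * δ ≤ (1 - t) ^ N := by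
    have h5 := one_add_mul_le_pow (show -2 ≤ -t by linarith) N
    have h6 : 1 + (N : ℝ) * (-t) = 1 - 4 * δ := by
      rw [← htN]
      ring
    rw [h6] at h5
    exact h5
  rw [h2, ball_vol o hρ1, ball_vol o hρ2] at h1
  have hv := vB_pos (N := N)
  refine ⟨ne_top_of_le_ne_top hb (measure_mono (hsub.trans sdiff_subset)), ?_⟩
  nlinarith [mul_le_mul_of_nonneg_right h3 hv.le, mul_le_mul_of_nonneg_right h4 hv.le]

/-- **(CN)** the centre, dimension-free -/
theorem pf_CN (hCG : T_CG) : T_CN := by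
  intro s hs
  obtain ⟨δ, hδ⟩ : ∃ δ : ℝ, δ = min (s / 24) (1 / 4) := ⟨_, rfl⟩
  have hδ0 : 0 < δ := by rw [hδ]; exact lt_min (by positivity) (by norm_num)
  have hδ1 : δ ≤ s / 24 := by rw [hδ]; exact min_le_left _ _
  have hδ4 : δ ≤ 1 / 4 := by rw [hδ]; exact min_le_right _ _
  obtain ⟨κ, hκ⟩ : ∃ κ : ℝ, κ = min (1 / 2) ((s * δ / 8) ^ 2) := ⟨_, rfl⟩
  have hκ0 : 0 < κ := by rw [hκ]; exact lt_min (by norm_num) (by positivity)
  have hκ1 : κ ≤ 1 / 2 := by rw [hκ]; exact min_le_left _ _
  have hκ2 : κ ≤ (s * δ / 8) ^ 2 := by rw [hκ]; exact min_le_right _ _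
  have hsκ : Real.sqrt κ ≤ s * δ / 8 := by
    rw [Real.sqrt_le_left (by positivity)]
    exact hκ2
  have hκs : κ ≤ Real.sqrt κ := by
    apply Real.le_sqrt_of_sq_le
    nlinarith
  refine ⟨κ, 3, hκ0, le_rfl, ?_⟩
  intro N Ω c hN hO hΩf hΔ
  have hv := vB_pos (N := N)
  have hm : MeasurableSet Ω := hO.measurableSet
  have he : 0 < Real.exp (-((N : ℝ) / 4)) := Real.exp_pos _
  have hbf : ∀ z : E N, volume (ball z (1 : ℝ)) ≠ ⊤ := fun z => measure_ball_lt_top.ne
  have hSf : ∀ z : E N, volume (symmDiff Ω (ball z 1)) ≠ ⊤ := by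
    intro z
    have h1 : symmDiff Ω (ball z 1) ⊆ Ω ∪ ball z 1 := symmDiff_subset_union
    exact ne_top_of_le_ne_top (by
      have := measure_union_le (μ := volume) Ω (ball z 1)
      exact ne_top_of_le_ne_top (ENNReal.add_ne_top.2 ⟨hΩf, hbf z⟩) this) (measure_mono h1)
  have hvb : ∀ z : E N, volume.real (ball z 1) = vB N := by
    intro z
    have := ball_vol z one_pos
    rw [one_pow, one_mul] at this
    exact this
  have hΩ0 : 0 < volume Ω := by
    rw [pos_iff_ne_zero]
    intro h0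
    have h1 : volume.real (ball c 1) ≤ volume.real (Ω ∪ symmDiff Ω (ball c 1)) := by
      apply measureReal_mono
      · intro x hx
        by_cases hxo : x ∈ Ω
        · exact Or.inl hxo
        · exact Or.inr (Or.inr ⟨hx, hxo⟩)
      · have := measure_union_le (μ := volume) Ω (symmDiff Ω (ball c 1))
        exact ne_top_of_le_ne_top (ENNReal.add_ne_top.2 ⟨hΩf, hSf c⟩) this
    have h2 := measureReal_union_le (μ := volume) Ω (symmDiff Ω (ball c 1))
    have h3 : volume.real Ω = 0 := by rw [measureReal_def, h0, ENNReal.toReal_zero]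
    rw [hvb] at h1
    have h4 : κ * vB N ≤ 1 / 2 * vB N := mul_le_mul_of_nonneg_right hκ1 hv.le
    linarith
  obtain ⟨o, hmax, hcen⟩ := hCG N Ω (by omega) hm hΩf hΩ0
  refine ⟨o, ?_, hcen⟩
  have hmax' : ∫ x in Ω, gg c x ≤ ∫ x in Ω, gg o x := hmax c
  have hhO : ∀ z : E N, ∫ x in Ω, hh z x =
      (∫ x in Ω, gg z x) - volume.real Ω * Real.exp (-((N : ℝ) / 4)) := by
    intro z
    unfold hh
    rw [integral_sub (gg_int z Ω hΩf) (integrableOn_const (hs := hΩf)), setIntegral_const,
      smul_eq_mul]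
  have htr : ∫ x in ball o 1, hh o x = ∫ x in ball c 1, hh c x := by
    have h1 : ∀ z : E N, ∫ x in ball z 1, hh z x =
        ∫ x : E N, (ball (0 : E N) 1).indicator (hh 0) x := by
      intro z
      rw [← integral_indicator measurableSet_ball]
      have h2 : (ball z (1 : ℝ)).indicator (hh z) =
          fun x => (ball (0 : E N) 1).indicator (hh 0) (x - z) := by
        funext x
        by_cases hx : x ∈ ball z (1 : ℝ)
        · have hx' : x - z ∈ ball (0 : E N) 1 := by
            rw [mem_ball, dist_eq_norm] at hx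
            rw [mem_ball_zero_iff]
            exact hx
          rw [indicator_of_mem hx, indicator_of_mem hx']
          unfold hh gg
          rw [sub_zero]
        · have hx' : x - z ∉ ball (0 : E N) 1 := by
            rw [mem_ball, dist_eq_norm] at hx
            rw [mem_ball_zero_iff]
            exact hx
          rw [indicator_of_notMem hx, indicator_of_notMem hx']
      rw [h2]
      exact integral_sub_right_eq_self (fun x => (ball (0 : E N) 1).indicator (hh 0) x) z
    rw [h1 o, h1 c]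
  have hDc : (∫ x in ball c 1, hh c x) - ∫ x in Ω, hh c x ≤
      s * δ / 2 * (Real.exp (-((N : ℝ) / 4)) * vB N) := by
    rw [← deficit c Ω hm hΩf]
    have hms : MeasurableSet (symmDiff Ω (ball c 1)) := hm.symmDiff measurableSet_ball
    have h1 : ∫ x in symmDiff Ω (ball c 1), |hh c x| ≤
        ∫ x in symmDiff Ω (ball c 1), (gg c x + Real.exp (-((N : ℝ) / 4))) := by
      refine setIntegral_mono_on (hh_int c _ (hSf c)).abs
        ((gg_int c _ (hSf c)).add (integrableOn_const (hs := hSf c))) hms ?_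
      intro x _
      unfold hh
      have := gg_pos c x
      rw [abs_le]
      constructor <;> linarith
    rw [integral_add (gg_int c _ (hSf c)) (integrableOn_const (hs := hSf c)), setIntegral_const,
      smul_eq_mul] at h1
    have h2 := bathtub c (by omega) hκ0 _ hms (hSf c) hΔ
    have h3 : volume.real (symmDiff Ω (ball c 1)) * Real.exp (-((N : ℝ) / 4)) ≤
        κ * vB N * Real.exp (-((N : ℝ) / 4)) := mul_le_mul_of_nonneg_right hΔ he.le
    have h4 : 0 ≤ Real.exp (-((N : ℝ) / 4)) * vB N := by positivity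
    have h5 : (3 * Real.sqrt κ + κ) * (Real.exp (-((N : ℝ) / 4)) * vB N) ≤
        s * δ / 2 * (Real.exp (-((N : ℝ) / 4)) * vB N) := by
      apply mul_le_mul_of_nonneg_right _ h4
      linarith
    linarith
  have hDo : (∫ x in ball o 1, hh o x) - ∫ x in Ω, hh o x ≤
      s * δ / 2 * (Real.exp (-((N : ℝ) / 4)) * vB N) := by
    rw [htr, hhO o]
    rw [hhO c] at hDc
    linarith
  rw [← deficit o Ω hm hΩf] at hDo
  obtain ⟨T, hT⟩ : ∃ T : Set (E N), T = {x : E N | |hh o x| < δ * Real.exp (-((N : ℝ) / 4))} :=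
    ⟨_, rfl⟩
  have hTm : MeasurableSet T := by
    rw [hT]
    have hc : Continuous (hh o) := (gg_cont o).sub continuous_const
    exact (isOpen_lt hc.abs continuous_const).measurableSet
  obtain ⟨hTf, hsh⟩ := shell o hN hδ0 hδ4
  rw [← hT] at hsh hTf
  have hms : MeasurableSet (symmDiff Ω (ball o 1)) := hm.symmDiff measurableSet_ball
  have hdf : volume (symmDiff Ω (ball o 1) \ T) ≠ ⊤ :=
    ne_top_of_le_ne_top (hSf o) (measure_mono sdiff_subset)
  have h1 : volume.real (symmDiff Ω (ball o 1) \ T) * (δ * Real.exp (-((N : ℝ) / 4))) ≤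
      ∫ x in symmDiff Ω (ball o 1), |hh o x| := by
    have h2 : ∫ _ in symmDiff Ω (ball o 1) \ T, δ * Real.exp (-((N : ℝ) / 4)) ≤
        ∫ x in symmDiff Ω (ball o 1) \ T, |hh o x| := by
      refine setIntegral_mono_on (integrableOn_const (hs := hdf)) (hh_int o _ hdf).abs
        (hms.diff hTm) ?_
      intro x hx
      have h3 := hx.2
      rw [hT, mem_ofPred_eq, not_lt] at h3
      exact h3
    rw [setIntegral_const, smul_eq_mul] at h2
    refine h2.trans ?_
    refine setIntegral_mono_set (hh_int o _ (hSf o)).abs ?_ ?_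
    · filter_upwards with x
      exact abs_nonneg _
    · exact sdiff_subset.eventuallyLE
  have h2 : volume.real (symmDiff Ω (ball o 1) \ T) ≤ s / 2 * vB N := by
    have h3 : volume.real (symmDiff Ω (ball o 1) \ T) * (δ * Real.exp (-((N : ℝ) / 4))) ≤
        s / 2 * vB N * (δ * Real.exp (-((N : ℝ) / 4))) := by
      refine (h1.trans hDo).trans (le_of_eq ?_)
      ring
    exact le_of_mul_le_mul_right h3 (by positivity)
  have h3 : volume.real (symmDiff Ω (ball o 1)) ≤
      volume.real T + volume.real (symmDiff Ω (ball o 1) \ T) := by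
    have h4 : symmDiff Ω (ball o 1) ⊆ T ∪ (symmDiff Ω (ball o 1) \ T) := by
      intro x hx
      by_cases hxT : x ∈ T
      · exact Or.inl hxT
      · exact Or.inr ⟨hx, hxT⟩
    refine (measureReal_mono h4 ?_).trans (measureReal_union_le _ _)
    have := measure_union_le (μ := volume) T (symmDiff Ω (ball o 1) \ T)
    exact ne_top_of_le_ne_top (ENNReal.add_ne_top.2 ⟨hTf, hdf⟩) this
  have h4 : 12 * δ * vB N ≤ s / 2 * vB N := mul_le_mul_of_nonneg_right (by linarith) hv.le
  linarith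

end Pool.Agent.H70.LNN
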